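import Mathlib
import Pool.Agent.T2h83.US.Odd

/-!
# Shifted chains of the first kind of exact length `K` which start in an arbitrary set of primes

The question asks for infinitely many primes which start a chain of exact length `K`. Let `U` be ANY set of at least
`x / (log x) ^ A` primes up to `x`. We shift the terms `c 1, …, c K` of the chain and prove that for all vectors of shifts,
outside an exceptional set of relative size `ε`, at least `(1 - ε) #U / (V(y) log x) ^ (K - 1)` elements of `U` start a shifted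
chain of exact length `K` (the terms `0, …, K - 1` are prime, the term `K` is not), where `V(y)` is the product of the
`1 - 1 / l` over the primes `l ≤ y`. The shifts are such that the shifted term `i` is `2 ^ i p + h` with an odd multiple `h` of
all the odd primes up to `y`, a multiple of `log log x`, and run over residue classes modulo almost all moduli up to
`x / (log x) ^ B`, which have only a power of `log x` elements. Nothing is assumed about the set `U`.

Method: for the elements of `U` and the shifts of a class the von Mangoldt function is replaced by a sieve model (large sieve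
over the cells of almost all moduli, project AM); the second moment of the number of the `p ∈ U` for which `2 ^ i p + h` has no
small prime factor, over the shifts of the class, is found by the fundamental lemma of the sieve and averages over the pairs
of elements of `U`. For several shifts the result for one shift is applied to the subsets found before; the term `K` is rarely
prime.
-/

set_option autoImplicit false

namespace Pool.Agent.Results.MP_77cbc6_nt.ArbitrarySetsOfPrimes

open Finset

/-- the `i`-th term of the chain of the first kind which starts with `n` -/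
def c (i n : ℕ) : ℕ := 2 ^ i * (n + 1) - 1

/-- the product of the odd primes up to `y` -/
def W (y : ℕ) : ℕ := ∏ p ∈ (Icc 3 y).filter Nat.Prime, p

/-- the product of the `1 - 1 / p` over the primes `p ≤ y` -/
noncomputable def V (y : ℕ) : ℝ := ∏ p ∈ (Icc 1 y).filter Nat.Prime, (1 - 1 / (p : ℝ))

/-- the integers `1 ≤ m ≤ x / (2 W y)`, `m ≡ r (mod q)`, the parameters of the shifts -/
def class' (x y q r : ℕ) : Finset ℕ := (Icc 1 x).filter (fun m => 2 * W y * m ≤ x ∧ m ≡ r [MOD q])

/-- the shift of the term `c (i + 1)` with the parameter `m`: `c (i + 1) n + shift y i m = 2 ^ (i + 1) n + W y (2 m + 1)` -/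
def shift (y i m : ℕ) : ℕ := W y * (2 * m + 1) + 1 - 2 ^ (i + 1)

/-- the number of the elements `p` of `U` for which the shifted terms `c (i + 1) p + shift y i (m i)`, `i < K`, are prime if
`i + 1 < K` and not prime if `i + 1 = K` -/
def exact {K : ℕ} (U : Finset ℕ) (y : ℕ) (m : Fin K → ℕ) : ℕ :=
  (U.filter (fun p => ∀ i : Fin K, ((c (i + 1) p + shift y i (m i)).Prime ↔ (i : ℕ) + 1 < K))).card

lemma c_shift (y i m n : ℕ) (h : 2 ^ (i + 1) ≤ W y) : c (i + 1) n + shift y i m = 2 ^ (i + 1) * n + W y * (2 * m + 1) := by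
  unfold c shift
  have h1 : W y ≤ W y * (2 * m + 1) := Nat.le_mul_of_pos_right _ (by omega)
  have h2 : 1 ≤ 2 ^ (i + 1) := Nat.one_le_two_pow
  have h3 : 2 ^ (i + 1) * (n + 1) = 2 ^ (i + 1) * n + 2 ^ (i + 1) := by ring
  rw [h3]
  generalize W y * (2 * m + 1) = w at *
  generalize 2 ^ (i + 1) * n = u at *
  generalize 2 ^ (i + 1) = v at *
  omega

/-- Let `K ≥ 1`, `A`, `T` be natural numbers and `0 < ε ≤ 1`. There is `K₀` such that for every `K₁` there are `B` and `x₀` such
that for all `x ≥ x₀`, all `y` between `K₀ log log x` and `K₁ log log x` one has `2 ^ K ≤ W y` and for all integers `Q` with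
`Q (log x) ^ B ≤ x` there is a set `E` of at most `Q / (log x) ^ T` integers such that the following holds for all
`q 0, …, q (K - 1)` in `(Q, 2 Q]` outside `E` and all residue classes `r i` modulo `q i` for which the prime factors `p` of
`q i`, `y < p ≤ (log x) ^ B`, divide `2 r i + 1` (for instance, all classes if the `q i` are primes larger than `(log x) ^ B`). For EVERY set `U` of at
least `x / (log x) ^ A` primes up to `x`, for all vectors of `m i ≤ x / (2 W y)`, `m i ≡ r i (mod q i)`, except for at most `ε`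
times the product of the `x / (2 W y q i)`, at least `(1 - ε) #U / (V y log x) ^ (K - 1)` elements of `U` start a chain of exact
length `K` with the shifts `shift y i (m i)`. -/
theorem result (K A T : ℕ) (hK : 1 ≤ K) (ε : ℝ) (hε : 0 < ε) (hε1 : ε ≤ 1) : ∃ K₀ : ℕ, ∀ K₁ : ℕ, ∃ B x₀ : ℕ, ∀ x : ℕ, x₀ ≤ x →
    ∀ y : ℕ, K₀ * Real.log (Real.log x) ≤ y → (y : ℝ) ≤ K₁ * Real.log (Real.log x) → 2 ^ K ≤ W y ∧ 
    ∀ Q : ℕ, (Q : ℝ) * Real.log x ^ B ≤ x →
    ∃ E : Finset ℕ, (E.card : ℝ) ≤ Q / Real.log x ^ T ∧ ∀ q r : Fin K → ℕ,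
      (∀ i, q i ∈ Ioc Q (2 * Q) ∧ q i ∉ E) →
      (∀ i, ∀ p : ℕ, p.Prime → y < p → (p : ℝ) ≤ Real.log x ^ B → p ∣ q i → p ∣ 2 * r i + 1) →
      ∀ U : Finset ℕ, (∀ p ∈ U, p.Prime ∧ p ≤ x) → (x : ℝ) ≤ U.card * Real.log x ^ A →
        (((Fintype.piFinset (fun i => class' x y (q i) (r i))).filter (fun m =>
          (exact U y m : ℝ) < (1 - ε) * (U.card / (V y * Real.log x) ^ (K - 1)))).card : ℝ) ≤
          ε * ∏ i, (x / (2 * W y * q i) : ℝ) := by
  classical
  obtain ⟨k, rfl⟩ : ∃ k, K = k + 1 := ⟨K - 1, by omega⟩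
  obtain ⟨K₀, h1⟩ := Pool.Agent.T2h83.US.us_exact k (2 ^ (k + 1)) A T ε hε hε1
  obtain ⟨P, hP1, hP2⟩ := Nat.exists_infinite_primes (2 ^ (k + 1) + 3)
  refine ⟨K₀ + 1, fun K₁ => ?_⟩
  obtain ⟨B, x₁, h2⟩ := h1 K₁
  obtain ⟨x₂, h3⟩ := Pool.Agent.T2h83.US.sizes K₁ P
  obtain ⟨x₃, h4⟩ := Pool.Agent.H373R2.T7.ev_L' (Real.exp 1)
  refine ⟨B, x₁ + x₂ + x₃, fun x hx y hy1 hy2 => ?_⟩
  have hL := h4 x (by omega)
  have hlL : 0 ≤ Real.log (Real.log x) := by
    apply Real.log_nonneg
    have := Real.add_one_le_exp (1 : ℝ)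
    linarith
  have hK0 : (0 : ℝ) ≤ K₀ := Nat.cast_nonneg _
  push_cast at hy1
  obtain ⟨hyP, hWx⟩ := h3 x (by omega) y (by nlinarith) hy2
  have hpk : 1 ≤ 2 ^ (k + 1) := Nat.one_le_two_pow
  have hP3 : 3 ≤ P := by
    generalize 2 ^ (k + 1) = v at *
    omega
  have hy : 2 ≤ y := by omega
  have hWP : 2 ^ (k + 1) ≤ W y := by
    have h5 : P ∣ W y := Pool.Agent.T2h83.US.dvd_oddP y P hP2 hP3 hyP
    have h6 : P ≤ W y := Nat.le_of_dvd (Pool.Agent.T2h83.US.oddP_pos y) h5
    exact le_trans (Nat.le_add_right _ 3) (hP1.trans h6)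
  refine ⟨hWP, fun Q hQ => ?_⟩
  obtain ⟨E, hE1, hE2⟩ := h2 x (by omega) y (by linarith) hy2 Q hQ
  refine ⟨E, hE1, fun q r hq hr U hU hUc => ?_⟩
  have hM : primorial y = 2 * W y := Pool.Agent.T2h83.US.primorial_odd y hy
  have h5 := hE2 (fun i => 2 ^ ((i : ℕ) + 1)) (fun _ => W y) r q hq
    (fun i => ⟨Nat.one_le_two_pow, Nat.pow_le_pow_right (by norm_num) (by have := i.isLt; omega), hWx⟩)
    (fun i l s hl hly hs hys => Pool.Agent.T2h83.US.loc_odd y (i + 1) l s (by omega) hl hly hs hys)
    (fun i p hp hyp hpL hpq => Pool.Agent.T2h83.US.cls_odd y p (r i) hy (hr i p hp hyp hpL hpq)) U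
    (fun p hp => mem_Icc.2 ⟨(hU p hp).1.one_le, (hU p hp).2⟩) (fun p hp => (hU p hp).1) hUc
  rw [hM] at h5
  refine le_trans (le_trans ((Nat.cast_le (α := ℝ)).2 (card_le_card fun m hm => ?_)) h5) (le_of_eq ?_)
  · rw [mem_filter, Fintype.mem_piFinset] at hm ⊢
    rw [Nat.add_sub_cancel] at hm
    refine ⟨fun i => ?_, lt_of_le_of_lt (le_of_eq ?_) hm.2⟩
    · have := hm.1 i
      unfold class' at this
      unfold Pool.Agent.T2h83.US.cls
      rw [hM]
      exact this
    · unfold exact
      congr 2
      apply filter_congr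
      intro p hp
      have h6 : ∀ j : Fin (k + 1), c (j + 1) p + shift y j (m j) = 2 ^ ((j : ℕ) + 1) * p + (2 * W y * m j + W y) := by
        intro j
        rw [c_shift y j (m j) p ((Nat.pow_le_pow_right (by norm_num) (by have := j.isLt; omega)).trans hWP)]
        ring
      have hlast := h6 (Fin.last k)
      have hcs := fun i : Fin k => h6 i.castSucc
      rw [Fin.forall_fin_succ']
      simp only [Fin.val_castSucc, Fin.val_last] at hlast hcs ⊢
      simp only [hcs, hlast, lt_irrefl, iff_false]
      apply and_congr_left'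
      refine forall_congr' fun i => ?_
      have h7 : (i : ℕ) + 1 < k + 1 := by omega
      simp only [h7, iff_true]
  · push_cast
    rfl

end Pool.Agent.Results.MP_77cbc6_nt.ArbitrarySetsOfPrimes
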