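import Pool.Agent.T2h83.GD.Ex2

/-!
# Cunningham chains of the first kind of exact length two with a shift: almost all shifts in the residue classes of
# every odd modulus up to `N ^ (5 / 6 - ρ)`

The chains of the first kind are generated by the map `n ↦ 2 n + 1`. We replace it by the map `f s n = 2 n + 1 + s`
with an even shift `s` which runs through a residue class `a` of a modulus `q`, where `q` can be as large as the power
`5 / 6 - ρ` of the range of `p`; the problem itself is `s = 0`, and the class `a = 0` is always admitted. The chains of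
exact length `2` are the chains `p, f s p, f s (f s p)` in which the first two numbers are primes and the third one is
not.

For `1 ≤ u ≤ 3` let `F(u) = log u + ∫_1^(u/2) log ((u - s) / s) ds / s` (the integral is absent for `u ≤ 2`).
Let `2 / 3 ≤ θ ≤ 5 / 6` and `F = F (θ / (2 - 2 θ))`, so that `0 ≤ F ≤ 0.965`. For every modulus `q ≤ N ^ (θ - ρ)` which
is the product of a number `q₁ ≤ (log N) ^ T` and of an odd number `q₂`, and for every residue class `a` with
`gcd(a + 1, q) ≤ (log N) ^ T`, all but at most `N / (q (log N) ^ A)` of the even shifts `s < N`, `s ≡ a (mod q)`, have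
the following property: every window `(u, v] ⊆ (0, N]` of length at least `N / (log N) ^ A` contains between
`1 - F² - ε` times and `1 + F + ε` times the predicted number of the primes `p` which start a chain of exact length `2`.
Hence for each odd modulus `q` and each class `a` modulo `q` with `gcd(a + 1, q) ≤ (log q) ^ T` there are an even shift
`s ≡ a (mod q)` and a chain of exact length `2` for the map `f s` whose three numbers are at most `q ^ (6 / 5 + ε)`.

The proof (projects GT and GD, `T2h83/GT`, `T2h83/GD`) compares the primes with the sieve function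
`1_{no prime factor ≤ N ^ (1 - θ)}(n) * Σ_{d ∣ n, d > N ^ (1 - θ / 2)} Λ(d)`, which is at least `Λ`, whose mean value is
`1 + F`, and which is well distributed in the arithmetic progressions of the moduli `q r`, `r` small. The chains of
length three are bounded with the sieve of dimension three.
-/

set_option autoImplicit false

namespace Pool.Agent.Results.MP_77cbc6_nt.ExactLengthTwoEveryModulus

open Finset
open Pool.Agent.H560R3.GB (sing)

/-- the shifted map -/
def f (s n : ℕ) : ℕ := 2 * n + 1 + s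

/-- the number of the primes `p` with `u < p ≤ v` which start a chain of exact length `2` for the map `f s` -/
def exact2 (s u v : ℕ) : ℕ :=
  ((Ioc u v).filter (fun p => p.Prime ∧ (f s p).Prime ∧ ¬ (f s (f s p)).Prime)).card

/-- Every window `(u, v] ⊆ (0, N]` of length at least `N / (log N) ^ A` contains between `lo` times and `hi` times
`𝔖(s + 1) (v - u) / (log N)²` primes which start a chain of exact length `2` for the map `f s`. -/
def Good (A : ℕ) (lo hi : ℝ) (N s : ℕ) : Prop :=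
  ∀ u v : ℕ, v ≤ N → (N : ℝ) / Real.log N ^ A ≤ (v : ℝ) - u →
    lo * (sing (s + 1) * ((v : ℝ) - u) / Real.log N ^ 2) ≤ (exact2 s u v : ℝ) ∧
    (exact2 s u v : ℝ) ≤ hi * (sing (s + 1) * ((v : ℝ) - u) / Real.log N ^ 2)

open Classical in
/-- the even `s < N` with `s ≡ a (mod q)` which are not good -/
noncomputable def bad (A : ℕ) (lo hi : ℝ) (N q : ℕ) (a : ℤ) : Finset ℕ :=
  (range N).filter (fun s : ℕ => Even s ∧ (s : ℤ) ≡ a [ZMOD q] ∧ ¬ Good A lo hi N s)

/-- the function `F(u) = log u + ∫_1^(u/2) log ((u - s) / s) ds / s` -/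
noncomputable def F (u : ℝ) : ℝ := Real.log u + ∫ s in (1 : ℝ)..max 1 (u / 2), Real.log ((u - s) / s) / s

lemma exact2_eq (s u v : ℕ) : exact2 s u v = Pool.Agent.T2h83.GD.cntE (s + 1) u v := by
  unfold exact2 Pool.Agent.T2h83.GD.cntE
  have e1 : ∀ p : ℕ, f s p = 2 * p + (s + 1) := fun p => by unfold f; ring
  have e2 : ∀ p : ℕ, 2 * (2 * p + (s + 1)) + (s + 1) = 4 * p + 3 * (s + 1) := fun p => by ring
  simp only [e1, e2]

/-- Let `2 / 3 ≤ θ ≤ 5 / 6` and `F = F (θ / (2 - 2 θ))`. Then `0 ≤ F ≤ 0.965`, and for all `ε, ρ > 0` and all `A, T`,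
for all large `N`, every modulus `q = q₁ q₂ ≤ N ^ (θ - ρ)` with `q₁ ≤ (log N) ^ T` and `q₂` odd, and every class `a` with
`gcd(a + 1, q) ≤ (log N) ^ T`, all but at most `N / (q (log N) ^ A)` of the even `s < N`, `s ≡ a (mod q)`, are good with
the constants `1 - F² - ε` and `1 + F + ε`. For all large odd `q` and each class `a` with `gcd(a + 1, q) ≤ (log q) ^ T`
there are an even `s ≡ a (mod q)` and a prime `p` which starts a chain of exact length `2` for the map `f s` with
`f s (f s p) ≤ q ^ (6 / 5 + ε)`. -/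
theorem result :
    (∀ θ : ℝ, 2 / 3 ≤ θ → θ ≤ 5 / 6 →
      (0 ≤ F (θ / (2 - 2 * θ)) ∧ F (θ / (2 - 2 * θ)) ≤ 0.965) ∧
      ∀ ε : ℝ, 0 < ε → ∀ ρ : ℝ, 0 < ρ → ∀ A T : ℕ, ∃ N₀ : ℕ, ∀ N : ℕ, N₀ ≤ N → ∀ q₁ q₂ : ℕ, 1 ≤ q₁ →
        (q₁ : ℝ) ≤ Real.log N ^ T → Odd q₂ → ((q₁ * q₂ : ℕ) : ℝ) ≤ (N : ℝ) ^ (θ - ρ) →
        ∀ a : ℤ, (Int.gcd (a + 1) (q₁ * q₂ : ℕ) : ℝ) ≤ Real.log N ^ T →
          ((bad A (1 - F (θ / (2 - 2 * θ)) ^ 2 - ε) (1 + F (θ / (2 - 2 * θ)) + ε) N (q₁ * q₂) a).card : ℝ) ≤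
            N / ((q₁ * q₂ : ℕ) * Real.log N ^ A)) ∧
    (∀ ε : ℝ, 0 < ε → ∀ T : ℕ, ∃ q₀ : ℕ, ∀ q : ℕ, q₀ ≤ q → Odd q →
      ∀ a : ℤ, (Int.gcd (a + 1) q : ℝ) ≤ Real.log q ^ T →
      ∃ s p : ℕ, Even s ∧ (s : ℤ) ≡ a [ZMOD q] ∧ p.Prime ∧ (f s p).Prime ∧ ¬ (f s (f s p)).Prime ∧
        (f s (f s p) : ℝ) ≤ (q : ℝ) ^ (6 / 5 + ε)) := by
  classical
  refine ⟨fun θ hθ0 hθ1 => ?_, fun ε hε T => ?_⟩
  · have hFU : ∀ u, F u = Pool.Agent.T2h83.GT.FU u := fun u => rfl
    obtain ⟨hb0, hb1⟩ := Pool.Agent.T2h83.GT.FU_bd hθ0 hθ1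
    rw [hFU]
    refine ⟨⟨hb0, by linarith⟩, fun ε hε ρ hρ A T => ?_⟩
    obtain ⟨G, hG⟩ : ∃ G, G = Pool.Agent.T2h83.GT.FU (θ / (2 - 2 * θ)) := ⟨_, rfl⟩
    obtain ⟨N₀, h1⟩ := Pool.Agent.T2h83.GD.ex2_all ε hε hθ0 hθ1 ρ hρ A T
    rw [← hG] at h1 ⊢
    refine ⟨N₀, fun N hN q₁ q₂ hq₁ hq₁T hq₂ hqN a ha => ?_⟩
    refine le_trans ?_ (h1 N hN q₁ q₂ hq₁ hq₁T hq₂ hqN (a + 1) ha)
    have h3 : (bad A (1 - G ^ 2 - ε) (1 + G + ε) N (q₁ * q₂) a).card ≤
        (Pool.Agent.T2h83.GD.badE A (1 - G ^ 2 - ε) (1 + G + ε) N (q₁ * q₂) (a + 1)).card := by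
      refine card_le_card_of_injOn (fun s => s + 1) ?_ ((add_left_injective 1).injOn)
      intro s hs
      rw [mem_coe] at hs
      unfold bad at hs
      rw [mem_filter, mem_range] at hs
      obtain ⟨b1, b2, b3, b4⟩ := hs
      rw [mem_coe]
      unfold Pool.Agent.T2h83.GD.badE
      rw [mem_filter, mem_Icc]
      refine ⟨⟨Nat.succ_pos s, b1⟩, b2.add_one, ?_, fun hgood => b4 ?_⟩
      · push_cast at b3 ⊢
        exact b3.add_right 1
      · intro u v hv huv
        rw [exact2_eq]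
        exact hgood u v hv huv
    exact_mod_cast h3
  · obtain ⟨q₀, h1⟩ := Pool.Agent.T2h83.GD.ex2_least ε hε T
    refine ⟨q₀, fun q hq hodd a ha => ?_⟩
    obtain ⟨h, p, k1, k2, k3, k4, k5, -, k6⟩ := h1 q hq hodd (a + 1) ha
    have hh : h = (h - 1) + 1 := (Nat.sub_add_cancel k1.pos).symm
    have e1 : f (h - 1) p = 2 * p + h := by
      unfold f
      omega
    have e2 : f (h - 1) (f (h - 1) p) = 4 * p + 3 * h := by
      rw [e1]
      unfold f
      omega
    refine ⟨h - 1, p, ?_, ?_, k3, by rw [e1]; exact k4, by rw [e2]; exact k5, by rw [e2]; exact k6⟩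
    · have h3 := Nat.odd_iff.1 k1
      rw [Nat.even_iff]
      omega
    · rw [Nat.cast_sub k1.pos, Nat.cast_one]
      have := k2.sub_right 1
      simpa using this

end Pool.Agent.Results.MP_77cbc6_nt.ExactLengthTwoEveryModulus
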