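import Mathlib
import Pool.Agent.T2h83.AM.Lin5

/-!
# Cunningham chains of the first kind of exact length `K`, shifted along residue classes of almost all moduli

For almost all moduli `q`, up to `N / log ^ B N`, and for all residue classes `r 1, ..., r K` modulo `q`, almost all vectors
`s` of shifts in these classes satisfy the conjecture on the number of the primes `p ≤ N` for which
`c 1 p + s 1, ..., c (K - 1) p + s (K - 1)` are primes and `c K p + s K` is not, where `c i p = 2 ^ i (p + 1) - 1`. For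
`r = 0` and a fixed modulus these shifts are the multiples of `q` up to `N`, a family of only `(log N) ^ (B K)` vectors.

Method: large values of the exponential sum of `Λ` minus a sieve model on the translates `β + c / q` are counted for all
moduli at once (large sieve on cells, Fejer kernels), which gives the mean square in ALL residue classes of almost all
moduli; the passage to systems, the main term and the lower bound of local products are from the starting files
(`Pool.Agent.H373R2.T7`).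
-/

set_option autoImplicit false

namespace Pool.Agent.Results.MP_77cbc6_nt.ShiftedChainsAlmostAllModuli

open Finset Filter

/-- the `i`-th term of the chain of the first kind which starts with `n` -/
def c (i n : ℕ) : ℕ := 2 ^ i * (n + 1) - 1

/-- The shift of the term `c (i + 1)` is `s i`. No prime divides the product of `n` and of the `c (i + 1) n + s i`,
`i + 1 < K`, for all `n`. -/
def Admissible (K : ℕ) (s : Fin K → ℕ) : Prop :=
  ∀ l : ℕ, l.Prime → ∃ n : ℕ, ¬ l ∣ n ∧ ∀ i : Fin K, (i : ℕ) + 1 < K → ¬ l ∣ c (i + 1) n + s i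

/-- the number of the classes `n` modulo `l` in which this product is divisible by `l` -/
def nu (K : ℕ) (s : Fin K → ℕ) (l : ℕ) : ℕ :=
  ((range l).filter (fun n => l ∣ n ∨ ∃ i : Fin K, (i : ℕ) + 1 < K ∧ l ∣ c (i + 1) n + s i)).card

/-- the product over the primes `l ≤ z` of `(1 - nu / l) / (1 - 1 / l) ^ K` -/
noncomputable def singular (K : ℕ) (s : Fin K → ℕ) (z : ℕ) : ℝ :=
  ∏ l ∈ (Icc 1 z).filter Nat.Prime, (1 - (nu K s l : ℝ) / l) / (1 - 1 / (l : ℝ)) ^ K

/-- the number of the primes `p ≤ N` for which `c (i + 1) p + s i`, `i < K`, is prime if `i + 1 < K` and not prime if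
`i + 1 = K`: shifted chains of exact length `K` -/
def exact (K : ℕ) (s : Fin K → ℕ) (N : ℕ) : ℕ :=
  ((Icc 1 N).filter (fun p : ℕ => p.Prime ∧ ∀ i : Fin K, ((c (i + 1) p + s i).Prime ↔ (i : ℕ) + 1 < K))).card

/-- The asymptotic formula for the number of the shifted chains of exact length `K`, up to the factors `1 ± ε`, with the
singular series `S ≥ κ`, if the system is admissible -/
def Predicted (K : ℕ) (κ ε : ℝ) (N : ℕ) (s : Fin K → ℕ) : Prop :=
  Admissible K s → ∃ S : ℝ, κ ≤ S ∧ Tendsto (singular K s) atTop (nhds S) ∧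
    |(exact K s N : ℝ) - S * N / Real.log N ^ K| ≤ ε * (S * N / Real.log N ^ K)

lemma c_eq (i n t : ℕ) : c i n + t = 2 ^ i * n + (2 ^ i - 1 + t) := by
  unfold c
  have h1 : 1 ≤ 2 ^ i := Nat.one_le_two_pow
  rw [Nat.mul_add, Nat.mul_one]
  omega

lemma adm_of_dvd (K : ℕ) (hK : 1 ≤ K) (s : Fin K → ℕ) (hs : ∀ i, K.factorial ∣ s i) : Admissible K s := by
  obtain ⟨k, rfl⟩ : ∃ k, K = k + 1 := ⟨K - 1, by omega⟩
  intro l hl
  by_cases h : l ≤ k + 1
  · refine ⟨l - 1, ?_, ?_⟩
    · intro hd
      have := Nat.le_of_dvd (by have := hl.two_le; omega) hd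
      have := hl.pos
      omega
    · intro i _ hd
      have h1 : l ∣ s i := (hl.dvd_factorial.2 h).trans (hs i)
      have h2 : l ∣ c (i + 1) (l - 1) := (Nat.dvd_add_left h1).1 hd
      unfold c at h2
      have h3 : l - 1 + 1 = l := Nat.sub_add_cancel hl.pos
      rw [h3] at h2
      have h4 : 1 ≤ 2 ^ ((i : ℕ) + 1) * l := Nat.mul_pos (by positivity) hl.pos
      have h5 : l ∣ 1 := by
        have h6 := (Nat.dvd_sub (Dvd.intro_left (2 ^ ((i : ℕ) + 1)) rfl) h2 : l ∣ 2 ^ ((i : ℕ) + 1) * l - (2 ^ ((i : ℕ) + 1) * l - 1))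
        have h7 : 2 ^ ((i : ℕ) + 1) * l - (2 ^ ((i : ℕ) + 1) * l - 1) = 1 := by omega
        rwa [h7] at h6
      exact hl.one_lt.ne' (Nat.dvd_one.1 h5)
  · have h1 := Pool.Agent.T2h83.AM.nuL_le (k := k) (fun i => 2 ^ ((i : ℕ) + 1)) (fun i => 2 ^ ((i : ℕ) + 1) - 1 + s i.castSucc) l hl
      (by
        rintro i ⟨h2, -⟩
        have h3 := hl.dvd_of_dvd_pow h2
        have h4 := Nat.le_of_dvd (by norm_num) h3
        have := i.isLt
        omega)
    by_contra hcon
    push Not at hcon
    have h2 : Pool.Agent.T2h83.AM.nuL (k := k) (fun i => 2 ^ ((i : ℕ) + 1)) (fun i => 2 ^ ((i : ℕ) + 1) - 1 + s i.castSucc) l = l := by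
      unfold Pool.Agent.T2h83.AM.nuL
      rw [filter_true_of_mem, card_range]
      intro n _
      by_cases h3 : l ∣ n
      · exact Or.inl h3
      · obtain ⟨i, hi1, hi2⟩ := hcon n h3
        right
        have hik : (i : ℕ) < k := by omega
        refine ⟨⟨i, hik⟩, ?_⟩
        rw [c_eq] at hi2
        simpa using hi2
    rw [h2] at h1
    omega

/-- For every `K ≥ 1` there is a constant `κ > 0` such that for all `A` and `ε > 0` there are `B` and `N₀` with the
following property. Let `N ≥ N₀` and let `Q` be an integer with `Q log ^ B N ≤ N`. For all `q` in `(Q, 2 Q]`, except for at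
most `Q / log ^ A N` of them, and for all residues `0 ≤ r i < q` the following holds for all the vectors `j` of integers
`0 ≤ j i ≤ N / q`, except for at most the proportion `1 / log ^ A N` of them: if the shifts `s i = r i + q j i` form an
admissible vector, then the number of the shifted chains `p, c 1 p + s 0, ..., c (K - 1) p + s (K - 2)` of primes of exact
length `K` (`c K p + s (K - 1)` is not prime) with `p ≤ N` lies between `(1 - ε) S N / log ^ K N` and
`(1 + ε) S N / log ^ K N`, where the singular series `S` is at least `κ`. All the vectors of multiples of `K !` are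
admissible. -/
theorem result (K : ℕ) (hK : 1 ≤ K) :
    (∃ κ : ℝ, 0 < κ ∧ ∀ (A : ℕ) (ε : ℝ), 0 < ε → ∃ B N₀ : ℕ, ∀ N : ℕ, N₀ ≤ N → ∀ Q : ℕ, (Q : ℝ) * Real.log N ^ B ≤ N →
      ∃ E : Finset ℕ, (E.card : ℝ) ≤ Q / Real.log N ^ A ∧ ∀ q ∈ Ioc Q (2 * Q), q ∉ E →
        ∀ r : Fin K → ℕ, (∀ i, r i < q) → ∃ D : Finset (Fin K → ℕ),
          (D.card : ℝ) ≤ ((N / q + 1 : ℕ) : ℝ) ^ K / Real.log N ^ A ∧
          ∀ j : Fin K → ℕ, (∀ i, j i ≤ N / q) → j ∉ D → Predicted K κ ε N (fun i => r i + q * j i)) ∧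
    ∀ s : Fin K → ℕ, (∀ i, K.factorial ∣ s i) → Admissible K s := by
  classical
  refine ⟨?_, adm_of_dvd K hK⟩
  obtain ⟨k, rfl⟩ : ∃ k, K = k + 1 := ⟨K - 1, by omega⟩
  obtain ⟨κ, hκ, hmain⟩ := Pool.Agent.T2h83.AM.lin_exact (k := k) (fun i => 2 ^ ((i : ℕ) + 1))
    (fun i => Nat.one_le_two_pow)
  refine ⟨κ, hκ, fun A ε hε => ?_⟩
  obtain ⟨B, N₁, h1⟩ := hmain A ε hε
  obtain ⟨N₂, h2⟩ := Pool.Agent.H373R2.T7.ev_L' 4
  refine ⟨B + 1, N₁ + N₂ + 2 ^ (k + 3) + 3, fun N hN Q hQ => ?_⟩
  have hpp : 0 < 2 ^ (k + 3) := by positivity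
  have hL := h2 N (by omega)
  have hL1 : 1 ≤ Real.log N := by linarith
  obtain ⟨E, e1, e2⟩ := h1 N (by omega) Q ((mul_le_mul_of_nonneg_left (pow_le_pow_right₀ hL1 (by omega))
    (Nat.cast_nonneg _)).trans hQ)
  refine ⟨E, e1, fun q hq hqE r hr => ?_⟩
  -- sizes
  have hQN : 4 * Q ≤ N := by
    have h3 : (Q : ℝ) * 4 ≤ N := by
      refine le_trans (mul_le_mul_of_nonneg_left ?_ (Nat.cast_nonneg _)) hQ
      calc (4 : ℝ) ≤ Real.log N ^ 1 := by rw [pow_one]; exact hL
        _ ≤ _ := pow_le_pow_right₀ hL1 (by omega)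
    have : ((4 * Q : ℕ) : ℝ) ≤ N := by push_cast; linarith
    exact_mod_cast this
  have hr' : ∀ i : Fin (k + 1), 2 ^ ((i : ℕ) + 1) - 1 + r i ≤ N := by
    intro i
    rw [mem_Ioc] at hq
    have h3 := hr i
    have h4 : 2 ^ ((i : ℕ) + 1) ≤ 2 ^ (k + 1) := Nat.pow_le_pow_right (by norm_num) (by have := i.isLt; omega)
    have h5 : 2 ^ (k + 3) = 4 * 2 ^ (k + 1) := by ring
    omega
  have h3 := e2 q hq hqE (fun i => 2 ^ ((i : ℕ) + 1) - 1 + r i) hr'
  refine ⟨_, h3, fun j hj hjD => ?_⟩
  rw [mem_filter, not_and, not_not] at hjD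
  have h4 := hjD (by
    rw [Fintype.mem_piFinset]
    intro i
    have := hj i
    rw [mem_range]
    omega)
  intro hadm
  obtain ⟨s, hs⟩ : ∃ s : Fin (k + 1) → ℕ, s = fun i => r i + q * j i := ⟨_, rfl⟩
  rw [← hs] at hadm ⊢
  have hs' : ∀ i : Fin (k + 1), 2 ^ ((i : ℕ) + 1) - 1 + r i + q * j i = 2 ^ ((i : ℕ) + 1) - 1 + s i := by
    intro i
    rw [hs]
    ring
  simp only [hs'] at h4
  have hform : ∀ (i : Fin (k + 1)) (n : ℕ), 2 ^ ((i : ℕ) + 1) * n + (2 ^ ((i : ℕ) + 1) - 1 + s i) = c (i + 1) n + s i :=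
    fun i n => (c_eq _ _ _).symm
  obtain ⟨S, g1, g2, g3, g4⟩ := h4 (by
    intro l hl
    obtain ⟨n, h5, h6⟩ := hadm l hl
    refine ⟨n, h5, fun i => ?_⟩
    have h7 := h6 i.castSucc (by simp)
    have h8 := hform i.castSucc n
    simp only [Fin.val_castSucc] at h7 h8
    rw [← h8] at h7
    exact h7)
  refine ⟨S, g1, ?_, ?_⟩
  · refine g2.congr fun z => ?_
    unfold Pool.Agent.T2h83.AM.sgL singular Pool.Agent.T2h83.AM.FpL Pool.Agent.H373R2.T7.pz
    refine prod_congr rfl fun l _ => ?_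
    have : Pool.Agent.T2h83.AM.nuL (Pool.Agent.T2h83.AM.ini (fun i : Fin (k + 1) => 2 ^ ((i : ℕ) + 1)))
        (Pool.Agent.T2h83.AM.ini (fun i : Fin (k + 1) => 2 ^ ((i : ℕ) + 1) - 1 + s i)) l = nu (k + 1) s l := by
      unfold Pool.Agent.T2h83.AM.nuL nu
      congr 1
      ext n
      rw [mem_filter, mem_filter]
      refine and_congr_right fun _ => or_congr_right ?_
      constructor
      · rintro ⟨i, hi⟩
        refine ⟨i.castSucc, by simp, ?_⟩
        rw [← hform]
        exact hi
      · rintro ⟨i, hi1, hi2⟩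
        refine ⟨⟨i, by omega⟩, ?_⟩
        rw [← hform] at hi2
        exact hi2
    rw [this]
  · have : Pool.Agent.T2h83.AM.cntX (fun i : Fin (k + 1) => 2 ^ ((i : ℕ) + 1))
        (fun i => 2 ^ ((i : ℕ) + 1) - 1 + s i) N = exact (k + 1) s N := by
      unfold Pool.Agent.T2h83.AM.cntX exact
      congr 1
      ext p
      rw [mem_filter, mem_filter]
      refine and_congr_right fun _ => and_congr_right fun _ => ?_
      simp only [hform]
      constructor
      · rintro ⟨h5, h6⟩ i
        induction i using Fin.lastCases with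
        | last => simpa using h6
        | cast i => simpa using h5 i
      · intro h5
        refine ⟨fun i => ?_, ?_⟩
        · exact (h5 i.castSucc).2 (by simp)
        · have := (h5 (Fin.last k)).not
          rw [this]
          simp
    rw [this] at g4
    exact g4

end Pool.Agent.Results.MP_77cbc6_nt.ShiftedChainsAlmostAllModuli
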